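import Pool.Agent.Helper345_Quot.Fin2

/-!
Rationality of the Euler characteristic series of the Quot schemes of the first Ext sheaf of a
torsion free sheaf.
-/

namespace Pool.Agent.Results.MP_d4c0ca_ag.ExtQuotRational

universe u

open AlgebraicGeometry CategoryTheory Pool.Agent.Helper345_Quot

/-- Let `X` be an integral normal separated scheme of finite type and of dimension at most three
over the algebraically closed field `k` of characteristic zero, `F` a torsion free coherent sheaf on
`X`, and `G` the first Ext sheaf of `F` with values in the structure sheaf. Then for every `n` the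
set of quotients of `G` of length `n` has a definable parametrisation, the Euler characteristic of
which does not depend on choices, and the series of these Euler characteristics is the expansion of
a rational function. -/
theorem result {k : Type u} [Field k] [IsAlgClosed k] [CharZero k] (X : Scheme.{u})
    [X.Over (Spec (.of k))] [LocallyOfFiniteType (X ↘ Spec (.of k))]
    [QuasiCompact (X ↘ Spec (.of k))] [IsSeparated (X ↘ Spec (.of k))] [IsIntegral X]
    (hnormal : ∀ U : X.Opens, IsAffineOpen U → IsIntegrallyClosed Γ(X, U))
    (hdim : ∀ U : X.Opens, IsAffineOpen U → ringKrullDim Γ(X, U) ≤ 3)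
    (F : X.Modules) [F.IsQuasicoherent]
    (hcoh : ∀ U : X.Opens, IsAffineOpen U → Module.Finite Γ(X, U) Γ(F, U))
    (htf : ∀ U : X.Opens, IsAffineOpen U → Module.IsTorsionFree Γ(X, U) Γ(F, U))
    (G : X.Modules) [G.IsQuasicoherent] (hG : IsExtOne F G) :
    (∀ n : ℕ, Nonempty (SParam k G {N | IsColength n N})) ∧
    ∀ E : EulerChar k,
      (∀ (n : ℕ) (P P' : SParam k G {N | IsColength n N}), E.χ P.S = E.χ P'.S) ∧
      ∀ P : ∀ n : ℕ, SParam k G {N | IsColength n N}, ∃ p q : Polynomial ℚ, q.coeff 0 ≠ 0 ∧
        (PowerSeries.mk fun n => ((E.χ (P n).S : ℤ) : ℚ)) * (q : PowerSeries ℚ) =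
          (p : PowerSeries ℚ) :=
  rationalQuot_ext hnormal hdim F hcoh htf G hG

end Pool.Agent.Results.MP_d4c0ca_ag.ExtQuotRational
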